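import Pool.Agent.H986R2.SZ.Bridge

/-!
# Simplicity of zeros for the derivatives and the heat flow of the Riemann Xi function

Let `H t` be the heat flow of the Riemann Xi function, `H t z = ∫_0^∞ e^{t u²} Φ(u) cos (z u) du`, so that
`H 0 z = Ξ(z/2) / 8` and the assertion Q1 (all real zeros of Hardy's function `Z` are simple) says that
all real zeros of `H 0` are simple.  We prove the assertion, and the reality of the zeros, for the
derivatives `H t ^ (n)`, away from a bounded range of the parameters: there is an absolute constant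
`C > 0` such that for ALL `t ≥ 0` and ALL `n ≥ 0` every zero `z` of the `n`-th derivative of `H t`

* is real and simple if `n ≥ C` and `|Re z| ≤ exp (n / C)` (for `t = 0`: the `n`-th derivative of `Ξ`),
* is real and simple if `t > 0` and `|Re z| ≥ exp (C / t)`,
* is real and simple if `n t ≥ C`.

Proof.  Reality: a saddle point argument with a shifted Dirichlet series in the window `|z| ≈ exp (c n)`,
uniformly in `t`, Jensen circles and Newton's identities.  Simplicity for `t > 0`: at a zero of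
multiplicity `m ≥ 2` of `H t ^ (n)` the expansion of the flow backwards in time contradicts Laguerre's
inequality for `H (t - δ) ^ (n)` or its derivative, which holds since the zeros nearby are real at all
times shortly before `t`.
-/

set_option autoImplicit false

namespace Pool.Agent.Results.MP_6bc78b_nt.HeatFlowSimple

/-- The kernel `Φ(u) = ∑_{n ≥ 1} (2 π² n⁴ e^{9u} - 3 π n² e^{5u}) exp(-π n² e^{4u})`. -/
noncomputable def Phi (u : ℝ) : ℝ := ∑' n : ℕ,
  (2 * Real.pi ^ 2 * ((n : ℝ) + 1) ^ 4 * Real.exp (9 * u) -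
    3 * Real.pi * ((n : ℝ) + 1) ^ 2 * Real.exp (5 * u)) *
    Real.exp (-(Real.pi * ((n : ℝ) + 1) ^ 2 * Real.exp (4 * u)))

/-- `H t z = ∫_0^∞ e^{t u²} Φ(u) cos (z u) du`. -/
noncomputable def H (t : ℝ) (z : ℂ) : ℂ :=
  ∫ u in Set.Ioi (0 : ℝ), ((Real.exp (t * u ^ 2) * Phi u : ℝ) : ℂ) * Complex.cos (z * u)

/-- If `z` is a zero of the `n`-th derivative of `H t`, then it is real and simple. -/
def RealSimple (t : ℝ) (n : ℕ) (z : ℂ) : Prop :=
  iteratedDeriv n (H t) z = 0 → z.im = 0 ∧ iteratedDeriv (n + 1) (H t) z ≠ 0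

/-- Q1: every zero of `ζ` on the critical line is simple (the multiplicity of a real zero `y` of Hardy's
function `Z` is the multiplicity of the zero `1/2 + i y` of `ζ`). -/
def Q1 : Prop := ∀ y : ℝ, riemannZeta (1 / 2 + Complex.I * y) = 0 →
  deriv riemannZeta (1 / 2 + Complex.I * y) ≠ 0

theorem result :
    (∃ C : ℝ, 0 < C ∧
      (∀ (t : ℝ) (n : ℕ) (z : ℂ), 0 ≤ t → C ≤ n → |z.re| ≤ Real.exp (n / C) → RealSimple t n z) ∧
      (∀ (t : ℝ) (n : ℕ) (z : ℂ), 0 < t → Real.exp (C / t) ≤ |z.re| → RealSimple t n z) ∧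
      (∀ (t : ℝ) (n : ℕ) (z : ℂ), 0 < t → C ≤ n * t → RealSimple t n z)) ∧
    (Q1 ↔ ∀ z : ℂ, z.im = 0 → iteratedDeriv 0 (H 0) z = 0 → iteratedDeriv 1 (H 0) z ≠ 0) := by
  obtain ⟨C, hC, h1, h2, h3⟩ := Pool.Agent.H986R2.SZ.finalS
  exact ⟨⟨C, hC, fun t n z ht hn hz h0 => h1 t n z ht hn h0 hz,
    fun t n z ht hz h0 => h2 t n z ht h0 hz, fun t n z ht hn h0 => h3 t n z ht hn h0⟩,
    Pool.Agent.H986R2.SZ.bridge⟩

end Pool.Agent.Results.MP_6bc78b_nt.HeatFlowSimple
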